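import Mathlib

/-!
# Project MEI, all bodies: polar coordinates in the wedge over an edge
-/

namespace Helper53.M2V

open Set MeasureTheory Real
open scoped ENNReal

/-- half opening of the wedge over an edge -/
noncomputable def phm : ℝ := Real.arctan (1 / √2)

theorem phm_pos : 0 < phm := Real.arctan_pos.2 (by positivity)

theorem phm_lt : phm < π / 2 := Real.arctan_lt_pi_div_two _

theorem arctan_cubic {x : ℝ} (hx : 0 ≤ x) : x - x ^ 3 / 3 ≤ Real.arctan x := by
  have hd : ∀ y : ℝ, HasDerivAt (fun y => Real.arctan y - (y - y ^ 3 / 3))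
      (1 / (1 + y ^ 2) - (1 - 3 * y ^ 2 / 3)) y := by
    intro y
    have h1 : HasDerivAt (fun y : ℝ => y ^ 3 / 3) (3 * y ^ 2 / 3) y := by
      have := (hasDerivAt_pow 3 y).div_const 3
      norm_num at this ⊢
      exact this
    exact (Real.hasDerivAt_arctan y).sub ((hasDerivAt_id' y).sub h1)
  have hm : Monotone (fun y : ℝ => Real.arctan y - (y - y ^ 3 / 3)) := by
    refine monotone_of_hasDerivAt_nonneg hd fun y => ?_
    have h1 : 1 / (1 + y ^ 2) - (1 - 3 * y ^ 2 / 3) = y ^ 4 / (1 + y ^ 2) := by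
      field_simp
      ring
    rw [h1]
    positivity
  have h := hm hx
  simp only [Real.arctan_zero] at h
  norm_num at h
  linarith

theorem sqrt2_bd : 1.41421356 < √2 ∧ √2 < 1.4142136 := by
  constructor
  · exact Real.lt_sqrt_of_sq_lt (by norm_num)
  · rw [Real.sqrt_lt' (by norm_num)]; norm_num

theorem sqrt3_bd : 1.7320508 < √3 ∧ √3 < 1.7320509 := by
  constructor
  · exact Real.lt_sqrt_of_sq_lt (by norm_num)
  · rw [Real.sqrt_lt' (by norm_num)]; norm_num

theorem phm_le : phm ≤ 0.61551 := by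
  unfold phm
  obtain ⟨h1, h2⟩ := sqrt2_bd
  have hs : √2 * √2 = 2 := Real.mul_self_sqrt (by norm_num)
  have h3 : Real.arctan (1 / √2) + Real.arctan (3 - 2 * √2) = π / 4 := by
    rw [Real.arctan_add]
    · rw [← Real.arctan_one]
      congr 1
      have : (1 : ℝ) - 1 / √2 * (3 - 2 * √2) ≠ 0 := by
        have : 1 / √2 * (3 - 2 * √2) = 3 / √2 - 2 := by field_simp
        rw [this]
        have h5 : 3 / √2 < 2.2 := by
          rw [div_lt_iff₀ (by positivity)]; linarith
        intro h6; linarith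
      rw [div_eq_one_iff_eq this]
      field_simp
      nlinarith
    · have h4 : 1 / √2 * (3 - 2 * √2) = 3 / √2 - 2 := by field_simp
      rw [h4]
      have h5 : 3 / √2 < 3 := by
        rw [div_lt_iff₀ (by positivity)]; linarith
      linarith
  have h4 := arctan_cubic (x := 3 - 2 * √2) (by linarith)
  have h5 : (3 - 2 * √2) ^ 3 = 99 - 70 * √2 := by
    have : (3 - 2 * √2) ^ 3 = 27 - 54 * √2 + 36 * (√2 * √2) - 8 * (√2 * √2) * √2 := by ring
    rw [this, hs]; ring
  rw [h5] at h4
  have hpi := Real.pi_lt_d6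
  linarith

/-- the wedge -/
def Wd : Set (ℝ × ℝ) := {q | √2 * |q.1| < q.2}

theorem Wd_open : IsOpen Wd := isOpen_lt (by fun_prop) (by fun_prop)

theorem wd_polar {r φ : ℝ} (hr : 0 < r) (h : φ ∈ Ioo (-π) π) :
    (r * sin φ, r * cos φ) ∈ Wd ↔ φ ∈ Ioo (-phm) phm := by
  unfold Wd
  simp only [mem_ofPred_eq, abs_mul, abs_of_pos hr]
  have h2 : 0 < √2 := by positivity
  constructor
  · intro h1
    have hc : √2 * |sin φ| < cos φ := by
      have : r * (√2 * |sin φ|) < r * cos φ := by linarith
      exact lt_of_mul_lt_mul_left this hr.le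
    have hc0 : 0 < cos φ := lt_of_le_of_lt (by positivity) hc
    have hφ : |φ| < π / 2 := by
      by_contra hcon
      rw [not_lt] at hcon
      have h3 : cos φ ≤ 0 := by
        rw [← cos_abs]
        refine cos_nonpos_of_pi_div_two_le_of_le hcon ?_
        have : |φ| < π := abs_lt.2 h
        linarith [pi_pos]
      linarith
    have hlt := abs_lt.1 hφ
    have ht : |tan φ| < 1 / √2 := by
      rw [tan_eq_sin_div_cos, abs_div, abs_of_pos hc0, div_lt_div_iff₀ hc0 h2]
      linarith
    have ht' := abs_lt.1 ht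
    have h5 : arctan (tan φ) = φ := arctan_tan hlt.1 hlt.2
    unfold phm
    constructor
    · rw [← arctan_neg, ← h5]
      exact arctan_strictMono ht'.1
    · rw [← h5]
      exact arctan_strictMono ht'.2
  · intro h1
    have h3 := phm_lt
    have hφ : |φ| < phm := abs_lt.2 h1
    have hlt := abs_lt.1 (hφ.trans h3)
    have hc0 : 0 < cos φ := cos_pos_of_mem_Ioo hlt
    have h5 : arctan (tan φ) = φ := arctan_tan hlt.1 hlt.2
    have ht : |tan φ| < 1 / √2 := by
      rw [abs_lt]
      constructor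
      · have h6 : arctan (-(1 / √2)) < arctan (tan φ) := by
          rw [arctan_neg, h5]; exact h1.1
        exact arctan_strictMono.lt_iff_lt.1 h6
      · have h6 : arctan (tan φ) < arctan (1 / √2) := by rw [h5]; exact h1.2
        exact arctan_strictMono.lt_iff_lt.1 h6
    rw [tan_eq_sin_div_cos, abs_div, abs_of_pos hc0, div_lt_div_iff₀ hc0 h2] at ht
    have : r * (√2 * |sin φ|) < r * cos φ := mul_lt_mul_of_pos_left (by linarith) hr
    linarith

/-- **polar coordinates in the wedge** -/
theorem wd_lintegral {f : ℝ × ℝ → ℝ≥0∞} (hf : Measurable f) :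
    ∫⁻ q in Wd, f q = ∫⁻ r in Ioi (0 : ℝ), ∫⁻ φ in Ioo (-phm) phm,
      ENNReal.ofReal r * f (r * sin φ, r * cos φ) := by
  have hW : MeasurableSet Wd := Wd_open.measurableSet
  set F : ℝ × ℝ → ℝ≥0∞ := Wd.indicator f with hF
  have hFm : Measurable F := hf.indicator hW
  have h1 : ∫⁻ q in Wd, f q = ∫⁻ q, F q := (lintegral_indicator hW f).symm
  have h2 : ∫⁻ q, F q = ∫⁻ q : ℝ × ℝ, F q.swap := by
    exact ((Measure.measurePreserving_swap (μ := (volume : Measure ℝ))
      (ν := (volume : Measure ℝ))).lintegral_comp hFm).symm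
  have h3 := lintegral_comp_polarCoord_symm (fun q : ℝ × ℝ => F q.swap)
  rw [h1, h2, ← h3]
  have ht : polarCoord.target = Ioi (0 : ℝ) ×ˢ Ioo (-π) π := rfl
  rw [ht]
  have hm : Measurable (fun p : ℝ × ℝ => ENNReal.ofReal p.1 •
      F (polarCoord.symm p).swap) := by
    have : (fun p : ℝ × ℝ => ENNReal.ofReal p.1 • F (polarCoord.symm p).swap)
        = fun p : ℝ × ℝ => ENNReal.ofReal p.1 * F (p.1 * sin p.2, p.1 * cos p.2) := by
      funext p
      rw [polarCoord_symm_apply]
      rfl
    rw [this]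
    exact (ENNReal.measurable_ofReal.comp measurable_fst).mul (hFm.comp (by fun_prop))
  rw [Measure.volume_eq_prod, ← Measure.prod_restrict, lintegral_prod _ hm.aemeasurable]
  refine setLIntegral_congr_fun measurableSet_Ioi fun r hr => ?_
  have hr0 : 0 < r := hr
  have h4 : ∀ φ ∈ Ioo (-π) π, ENNReal.ofReal r • F (polarCoord.symm (r, φ)).swap
      = (Ioo (-phm) phm).indicator
        (fun φ => ENNReal.ofReal r * f (r * sin φ, r * cos φ)) φ := by
    intro φ hφ
    rw [polarCoord_symm_apply]
    simp only [Prod.swap_prod_mk, smul_eq_mul, hF]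
    by_cases h5 : φ ∈ Ioo (-phm) phm
    · rw [indicator_of_mem h5, indicator_of_mem ((wd_polar hr0 hφ).2 h5)]
    · rw [indicator_of_notMem h5, indicator_of_notMem (fun h => h5 ((wd_polar hr0 hφ).1 h)),
        mul_zero]
  simp only
  rw [setLIntegral_congr_fun measurableSet_Ioo h4, lintegral_indicator measurableSet_Ioo,
    Measure.restrict_restrict measurableSet_Ioo]
  congr 2
  refine inter_eq_left.2 (Ioo_subset_Ioo ?_ ?_)
  · have := phm_lt; linarith [pi_pos]
  · have := phm_lt; linarith [pi_pos]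

end Helper53.M2V
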